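import Pool.Agent.R287.DPa

set_option autoImplicit false

open Pool.Agent.R287.DP

namespace Pool.Agent.Results.MP_7c844e_an.StrictlyConvexDaugavetPoint

/-- There is a real Banach space which is strictly convex and whose unit sphere contains a
Daugavet point. -/
theorem result : ∃ (X : Type) (_ : NormedAddCommGroup X) (_ : NormedSpace ℝ X)
    (_ : CompleteSpace X),
    (∀ x y : X, ‖x‖ = 1 → ‖y‖ = 1 → ‖x + y‖ = 2 → x = y) ∧ ∃ x : X, IsDaugavetPoint x :=
  ⟨X, inferInstance, inferInstance, inferInstance, strict, one, daugavet⟩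

end Pool.Agent.Results.MP_7c844e_an.StrictlyConvexDaugavetPoint
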